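import Pool.Agent.SDet.Func

/-!
MP_381749_lc. If the permanent of every `n x n` matrix `M` with entries in `{0, ..., m}` is the sum
of the determinants of `t` matrices of sizes at most `m >= n`, whose entries are affine functions
of the entries of `M` over a field of characteristic zero, then
`2 t >= exp (c n ^ 2 / (m (1 + log (m / n)) ^ 2))`, with one constant `c > 0`.
-/

namespace Pool.Agent.Results.MP_381749_lc.DeterminantSums

open MvPolynomial

theorem result : ∃ c : ℝ, 0 < c ∧
    ∀ (K : Type) [Field K] [CharZero K] (n m t : ℕ), 1 ≤ n → n ≤ m →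
    ∀ (s : Fin t → ℕ) (A : ∀ i, Matrix (Fin (s i)) (Fin (s i)) (MvPolynomial (Fin n × Fin n) K)),
    (∀ i, s i ≤ m) → (∀ i p q, (A i p q).totalDegree ≤ 1) →
    (∀ M : Matrix (Fin n) (Fin n) ℕ, (∀ a b, M a b ≤ m) →
      (M.permanent : K) = ∑ i, ((A i).map (eval fun v => (M v.1 v.2 : K))).det) →
    Real.exp (c * n ^ 2 / (m * (1 + Real.log (m / n)) ^ 2)) ≤ 2 * t :=
  Pool.SDL.final_functional

end Pool.Agent.Results.MP_381749_lc.DeterminantSums
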