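import Pool.Agent.LIFTIS.Core
import Pool.Agent.LIFTIS.Graph
import Pool.Agent.LIFTIS.Transport
import Pool.Agent.LIFT.Average4

/-!
# Semidefinite counters of independent sets have a large error or exponential size
-/

set_option autoImplicit false

open scoped BigOperators Matrix

namespace Pool.Agent.Results.MP_381749_lc.IndependentSetCounters

/-- The number of independent sets of the subgraph of `H` induced on the vertex set `V`. -/
noncomputable def numIndep {N : ℕ} (H : SimpleGraph (Fin N)) (V : Finset (Fin N)) : ℕ :=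
  Nat.card {I : Finset (Fin N) // I ⊆ V ∧ H.IsIndepSet (I : Set (Fin N))}

/-- A semidefinite counter for graphs with vertices in `Fin N`: its variables are a real
`size × size` matrix and `free` real numbers, subject to arbitrary affine equations (they define the
affine subspace `space`); every vertex set `V` has an arbitrary affine objective function `obj V`. -/
structure Counter (N : ℕ) where
  free : ℕ
  size : ℕ
  space : AffineSubspace ℝ ((Fin free → ℝ) × Matrix (Fin size) (Fin size) ℝ)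
  obj : Finset (Fin N) → ((Fin free → ℝ) × Matrix (Fin size) (Fin size) ℝ) →ᵃ[ℝ] ℝ

/-- The feasible points: the equations hold and the matrix is positive semidefinite. -/
def Counter.feasible {N : ℕ} (R : Counter N) :
    Set ((Fin R.free → ℝ) × Matrix (Fin R.size) (Fin R.size) ℝ) :=
  {p | p ∈ R.space ∧ p.2.PosSemidef}

/-- The uniformly random subset `U` of the set `W` is represented: there is a feasible point at
which the objective function of every vertex set `V` is the entropy (in bits) of `U ∩ V`, which is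
the number of elements of `W ∩ V`. -/
def Counter.Represents {N : ℕ} (R : Counter N) (W : Finset (Fin N)) : Prop :=
  ∃ p ∈ R.feasible, ∀ V, R.obj V p = ((W ∩ V).card : ℝ)

/-- The counter certifies the upper bound `θ` for the vertex set `V`: its objective function is at
most `θ` at all feasible points. -/
def Counter.Certifies {N : ℕ} (R : Counter N) (V : Finset (Fin N)) (θ : ℝ) : Prop :=
  ∀ p ∈ R.feasible, R.obj V p ≤ θ

open LIFTIS LIFT.h93d

open Classical in
/-- **Theorem.** For every `η > 0` there are `c > 0` and `K` such that for all `C ≥ 1` and all `N`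
with `C ^ K ≤ c N` there are a graph `H` with `N` vertices and vertex sets `V j` (`j` in a finite
nonempty set `J`), whose numbers of independent sets satisfy `log₂ i(V j) ≥ c N / C ^ K`, with the
following property. Let `R` be a random semidefinite counter (a probability distribution `p` on
counters `R ω`) of expected size less than `exp (c N / C ^ K)` which represents every independent
set `W` of `H` with probability at least `α`. Then the probability that `R` certifies the upper
bound `C log₂ i(V j)` for `V j`, averaged over `j`, is less than `1 - α + η`. -/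
theorem result (η : ℝ) (hη : 0 < η) : ∃ (c : ℝ) (K : ℕ), 0 < c ∧
    ∀ (C : ℝ) (N : ℕ), 1 ≤ C → C ^ K ≤ c * N →
    ∃ (H : SimpleGraph (Fin N)) (J : Type) (_ : Fintype J) (_ : Nonempty J)
      (V : J → Finset (Fin N)),
    (∀ j, c * N / C ^ K ≤ Real.logb 2 (numIndep H (V j))) ∧
    ∀ (Ω : Type) [Fintype Ω] (p : Ω → ℝ) (R : Ω → Counter N) (α : ℝ),
      (∀ ω, 0 ≤ p ω) → ∑ ω, p ω = 1 →
      ∑ ω, p ω * ((R ω).size : ℝ) < Real.exp (c * N / C ^ K) →
      (∀ W : Finset (Fin N), H.IsIndepSet (W : Set (Fin N)) →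
        α ≤ ∑ ω, if (R ω).Represents W then p ω else 0) →
      ∑ ω, p ω * ((((Finset.univ : Finset J).filter fun j =>
          (R ω).Certifies (V j) (C * Real.logb 2 (numIndep H (V j)))).card : ℝ)
            / Fintype.card J) < 1 - α + η := by
  set γ : ℝ := min (η / 4) 1 with hγ
  have hγ0 : 0 < γ := lt_min (by positivity) one_pos
  have hγ1 : γ ≤ 1 := min_le_right _ _
  have hγη : γ ≤ η / 4 := min_le_left _ _
  obtain ⟨c₀, b, Q₀, hc₀, hb, hQ₀, hcore⟩ := final_core γ hγ0 hγ1
  obtain ⟨Q₁, hQ₁⟩ := exists_nat_ge (2 / c₀ * Real.log (8 / η))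
  set B : ℕ := 16 * b ^ 3 with hB
  obtain ⟨K, hK⟩ := exists_K (2 * B)
  set Q : ℕ := Q₀ + Q₁ with hQ
  have hB0 : 0 < B := by positivity
  have hQ0 : 0 < Q := by omega
  have hQ' : (0 : ℝ) < Q := by exact_mod_cast hQ0
  set c : ℝ := min (c₀ / (4 * 12 ^ K)) (min (1 / (Q * 12 ^ K)) (1 / (4 * 12 ^ K))) with hc
  have hc0 : 0 < c := lt_min (by positivity) (lt_min (by positivity) (by positivity))
  have hc1 : c ≤ c₀ / (4 * 12 ^ K) := min_le_left _ _
  have hc2 : c ≤ 1 / (Q * 12 ^ K) := (min_le_right _ _).trans (min_le_left _ _)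
  have hc3 : c ≤ 1 / (4 * 12 ^ K) := (min_le_right _ _).trans (min_le_right _ _)
  refine ⟨c, K, hc0, fun C N hC hCN => ?_⟩
  have hC0 : 0 < C := by linarith
  have hCK : 0 < C ^ K := by positivity
  obtain ⟨k, hk, hk1, hk2⟩ := exists_k C hC
  -- the powers of `B`
  have hBk : ((2 * B : ℕ) : ℝ) ^ k ≤ 12 ^ K * C ^ K := by
    calc ((2 * B : ℕ) : ℝ) ^ k ≤ ((8 / 5 : ℝ) ^ K) ^ k :=
          pow_le_pow_left₀ (Nat.cast_nonneg _) hK _
      _ = ((8 / 5 : ℝ) ^ k) ^ K := by rw [← pow_mul, ← pow_mul, mul_comm]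
      _ ≤ (12 * C) ^ K := pow_le_pow_left₀ (by positivity) hk2 _
      _ = 12 ^ K * C ^ K := mul_pow _ _ _
  have hkk : (k : ℝ) ≤ 2 ^ k := by
    exact_mod_cast (Nat.lt_two_pow_self (n := k)).le
  have hBk' : ((B : ℝ)) ^ k ≤ 12 ^ K * C ^ K := by
    refine le_trans ?_ hBk
    push_cast
    rw [mul_pow]
    have h1 : (1 : ℝ) ≤ 2 ^ k := one_le_pow₀ (by norm_num)
    have h2 : (0 : ℝ) ≤ (B : ℝ) ^ k := by positivity
    nlinarith
  have hQN : Q * k * B ^ k ≤ N := by
    have h1 : (Q : ℝ) * k * (B : ℝ) ^ k ≤ N := by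
      have h2 : (k : ℝ) * (B : ℝ) ^ k ≤ 12 ^ K * C ^ K := by
        refine le_trans ?_ hBk
        push_cast
        rw [mul_pow]
        exact mul_le_mul_of_nonneg_right hkk (by positivity)
      have h3 : (Q : ℝ) * 12 ^ K * C ^ K ≤ N := by
        have h4 : C ^ K ≤ 1 / (Q * 12 ^ K) * N :=
          hCN.trans (mul_le_mul_of_nonneg_right hc2 (Nat.cast_nonneg _))
        rw [one_div, inv_mul_eq_div, le_div_iff₀ (by positivity)] at h4
        calc (Q : ℝ) * 12 ^ K * C ^ K = C ^ K * (Q * 12 ^ K) := by ring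
          _ ≤ N := h4
      calc (Q : ℝ) * k * (B : ℝ) ^ k = Q * (k * (B : ℝ) ^ k) := by ring
        _ ≤ Q * (12 ^ K * C ^ K) := mul_le_mul_of_nonneg_left h2 hQ'.le
        _ = Q * 12 ^ K * C ^ K := by ring
        _ ≤ N := h3
    exact_mod_cast h1
  -- the number of variables
  have hBk0 : 0 < B ^ k := by positivity
  set q : ℕ := N / B ^ k with hq
  have hqQ : Q * k ≤ q := (Nat.le_div_iff_mul_le hBk0).2 hQN
  have hqN : q * B ^ k ≤ N := Nat.div_mul_le_self _ _
  have hq1 : 1 ≤ q := le_trans (Nat.succ_le_of_lt (Nat.mul_pos hQ0 hk)) hqQ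
  have hNq : (N : ℝ) ≤ 2 * q * (12 ^ K * C ^ K) := by
    have h1 : N < (q + 1) * B ^ k := by
      have h2 := Nat.div_add_mod N (B ^ k)
      have h3 := Nat.mod_lt N hBk0
      rw [← hq] at h2
      have h4 : (q + 1) * B ^ k = B ^ k * q + B ^ k := by ring
      omega
    have h2 : (N : ℝ) ≤ (q + 1) * (B : ℝ) ^ k := by exact_mod_cast h1.le
    have h3 : (q : ℝ) + 1 ≤ 2 * q := by
      have : (1 : ℝ) ≤ q := by exact_mod_cast hq1
      linarith
    calc (N : ℝ) ≤ (q + 1) * (B : ℝ) ^ k := h2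
      _ ≤ 2 * q * (12 ^ K * C ^ K) :=
        mul_le_mul h3 hBk' (by positivity) (by positivity)
  have hNq' : (N : ℝ) / C ^ K ≤ 2 * q * 12 ^ K := by
    rw [div_le_iff₀ hCK]
    linarith [hNq]
  have hcNq : c * N / C ^ K ≤ c₀ / 2 * q := by
    rw [mul_div_assoc]
    calc c * (N / C ^ K) ≤ c₀ / (4 * 12 ^ K) * (2 * q * 12 ^ K) :=
          mul_le_mul hc1 hNq' (by positivity) (by positivity)
      _ = c₀ / 2 * q := by
        field_simp
        ring
  have hcNq2 : c * N / C ^ K ≤ q / 2 := by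
    rw [mul_div_assoc]
    calc c * (N / C ^ K) ≤ 1 / (4 * 12 ^ K) * (2 * q * 12 ^ K) :=
          mul_le_mul hc3 hNq' (by positivity) (by positivity)
      _ = q / 2 := by
        field_simp
        ring
  have hq5 : 5 ≤ q := by
    have h1 : Q ≤ Q * k := Nat.le_mul_of_pos_right Q hk
    omega
  have hqQ₁ : (Q₁ : ℝ) ≤ q := by
    have h1 : Q ≤ Q * k := Nat.le_mul_of_pos_right Q hk
    have h2 : Q₁ ≤ q := by omega
    exact_mod_cast h2
  obtain ⟨M, a, s, φ, mu, hsum, ⟨y₀, hy₀⟩, hrow, hpos, hno⟩ := hcore k q hk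
    ((Nat.mul_le_mul_right k (Nat.le_add_right Q₀ Q₁)).trans hqQ)
  -- the embedding of the labels
  have hcard : Fintype.card (Lab (2 ^ k * q) k b) ≤ Fintype.card (Fin N) := by
    rw [card_lab, Fintype.card_fin]
    calc 2 ^ k * q * (8 * b ^ 3) ^ k = q * B ^ k := by
          rw [hB, show 16 * b ^ 3 = 2 * (8 * b ^ 3) by ring, mul_pow 2]
          ring
      _ ≤ N := hqN
  obtain ⟨e⟩ : Nonempty (Lab (2 ^ k * q) k b ↪ Fin N) :=
    Function.Embedding.nonempty_of_card_le hcard
  set H : SimpleGraph (Fin N) := (HL a φ b).map e with hH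
  let V : (Fin (3 * q) → Fin b) → Finset (Fin N) := fun S => (VS a s φ S).map e
  have hnum : ∀ S, numIndep H (V S) = ((VS a s φ S).powerset.filter
      fun I : Finset (Lab (2 ^ k * q) k b) => (HL a φ b).IsIndepSet
        (I : Set (Lab (2 ^ k * q) k b))).card := fun S => by
    rw [numIndep]
    convert card_indep_map (HL a φ b) e (VS a s φ S)
  have hnum1 : ∀ S, (1 : ℝ) ≤ numIndep H (V S) := by
    intro S
    have h1 : 1 ≤ numIndep H (V S) := by
      rw [hnum]
      exact le_trans Nat.one_le_two_pow (le_count a s φ S y₀)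
    exact_mod_cast h1
  have hupper : ∀ S, C * Real.logb 2 (numIndep H (V S)) ≤ 3 / 4 * (2 ^ k * q) := by
    intro S
    refine logb_le hq5 _ (hnum1 S) ?_ C hC hk1
    rw [hnum]
    exact (count_le a s φ S).trans hsum
  have hlower : ∀ S, c * N / C ^ K ≤ Real.logb 2 (numIndep H (V S)) := by
    intro S
    refine hcNq2.trans ?_
    rw [Real.le_logb_iff_rpow_le one_lt_two (by linarith [hnum1 S])]
    have h1 : (2 : ℝ) ^ (nsat a s φ y₀) ≤ numIndep H (V S) := by
      rw [hnum]
      exact_mod_cast le_count a s φ S y₀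
    refine le_trans ?_ h1
    rw [← Real.rpow_natCast]
    refine Real.rpow_le_rpow_of_exponent_le (by norm_num) ?_
    have h2 : (q : ℝ) ≤ 2 * nsat a s φ y₀ := by exact_mod_cast hy₀
    linarith
  have : Nonempty (Fin (3 * q) → Fin b) := ⟨fun _ => ⟨0, hb⟩⟩
  have hcardY : ((Fintype.card (Fin (3 * q) → Fin b) : ℕ) : ℝ) = (b : ℝ) ^ (3 * q) := by
    rw [Fintype.card_fun, Fintype.card_fin, Fintype.card_fin, Nat.cast_pow]
  have hYpos : (0 : ℝ) < (b : ℝ) ^ (3 * q) := by
    have : (0 : ℝ) < b := by exact_mod_cast hb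
    positivity
  refine ⟨H, Fin (3 * q) → Fin b, inferInstance, this, V, hlower, ?_⟩
  intro Ω _ p R α hp hp1 hsize hα
  by_contra hcon
  push Not at hcon
  let 𝒳 : Ω → Finset (Fin (3 * q) × Fin b → Bool) := fun ω => Finset.univ.filter fun x =>
    (R ω).Represents ((Wx a φ x).map e)
  let 𝒮 : Ω → Finset (Fin (3 * q) → Fin b) := fun ω => Finset.univ.filter fun S =>
    (R ω).Certifies (V S) (C * Real.logb 2 (numIndep H (V S)))
  -- a good counter
  obtain ⟨ω, hsmall, hrect⟩ := LIFT.average4 p (fun ω => ((R ω).size : ℝ)) hp hp1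
    (fun ω => Nat.cast_nonneg _) mu (2 ^ (3 * q * b)) (by positivity) γ η α
    (Real.exp (c₀ * q)) (Real.exp (c₀ / 2 * q)) hγ0 hγη hγ1 (Real.exp_pos _)
    (hsize.le.trans (Real.exp_le_exp.2 hcNq)) (by
      rw [← Real.exp_sub]
      have h1 : c₀ / 2 * q - c₀ * q ≤ -Real.log (8 / η) := by
        have h2 := hQ₁.trans hqQ₁
        rw [div_mul_eq_mul_div, div_le_iff₀ hc₀] at h2
        linarith
      refine (Real.exp_le_exp.2 h1).trans (le_of_eq ?_)
      rw [Real.exp_neg, Real.exp_log (by positivity), inv_div]) hrow (by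
      rw [hcardY]
      exact hpos) 𝒳 𝒮 (by
      intro x
      have h1 := hα ((Wx a φ x).map e) ((indep_map_iff _ _ _).2 (Wx_indep a φ x))
      simpa [𝒳] using h1) (by
      have h2 : (0 : ℝ) < Fintype.card (Fin (3 * q) → Fin b) := by
        rw [hcardY]
        exact hYpos
      calc (1 - α + η) * Fintype.card (Fin (3 * q) → Fin b)
          ≤ (∑ ω, p ω * (((Finset.univ.filter fun S => (R ω).Certifies (V S)
              (C * Real.logb 2 (numIndep H (V S)))).card : ℝ)
              / Fintype.card (Fin (3 * q) → Fin b))) * Fintype.card (Fin (3 * q) → Fin b) :=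
            mul_le_mul_of_nonneg_right hcon h2.le
        _ = ∑ ω, p ω * ((𝒮 ω).card : ℝ) := by
            rw [Finset.sum_mul]
            refine Finset.sum_congr rfl fun ω _ => ?_
            rw [mul_assoc, div_mul_cancel₀ _ h2.ne'])
  rw [hcardY] at hrect
  have hrep : ∀ x ∈ 𝒳 ω, ∃ p ∈ (R ω).feasible, ∀ V', (R ω).obj V' p
      = ((((Wx a φ x).map e) ∩ V').card : ℝ) := fun x hx => (Finset.mem_filter.1 hx).2
  let pt : (Fin (3 * q) × Fin b → Bool) →
      (Fin (R ω).free → ℝ) × Matrix (Fin (R ω).size) (Fin (R ω).size) ℝ :=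
    fun x => if h : x ∈ 𝒳 ω then (hrep x h).choose else 0
  have hpt : ∀ x ∈ 𝒳 ω, pt x ∈ (R ω).feasible ∧
      ∀ V', (R ω).obj V' (pt x) = ((((Wx a φ x).map e) ∩ V').card : ℝ) := by
    intro x hx
    have := (hrep x hx).choose_spec
    simp only [pt, hx, dif_pos]
    exact this
  refine hno (R ω).size (Fin (R ω).free → ℝ) (R ω).space (𝒳 ω) (𝒮 ω) pt
    (fun S => (R ω).obj (V S)) hsmall hrect (fun x hx => (hpt x hx).1)
    (fun S _ x hx => ?_) (fun S hS p hp1 hp2 => ?_)
  · rw [(hpt x hx).2, ← Finset.map_inter, Finset.card_map, Wx_inter]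
  · exact ((Finset.mem_filter.1 hS).2 p ⟨hp1, hp2⟩).trans (hupper S)

end Pool.Agent.Results.MP_381749_lc.IndependentSetCounters
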